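import Pool.Agent.LibFlatS3.OrientNear
import Pool.Agent.LibFlatS3.Bridge

set_option autoImplicit false

namespace Pool.Agent.Results.MP_ab5f6d_gt.AsymptoticOrientable

open Pool.Agent.LibFlatS3

/-- On a `C²` surface in the three-sphere with locally Euclidean metric, every asymptotic line
(closed or not) has an orientable open neighbourhood. -/
theorem result (F : Type) [TopologicalSpace F] (r : F → E4) (hr : Surface r)
    (hflat : LocallyEuclidean r) (c : ℝ → F) (hc : AsymptoticLine r c) :
    OrientableNear r (Set.range c) :=
  orientableNear_iff.mpr (orientable_near_asymptotic hr.sphere (locallyEuclidean_iff.mp hflat)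
    hc.continuous hc.smooth (fun s => asymptoticVector_iff.mp (hc.asymptotic s)))

end Pool.Agent.Results.MP_ab5f6d_gt.AsymptoticOrientable
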