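import Pool.Agent.LibFlatS3.Bridge

set_option autoImplicit false

namespace Pool.Agent.Results.MP_ab5f6d_gt.FlatNonorientable

open Pool.Agent.LibFlatS3

/-- There is a connected `C²` surface embedded in the three-sphere, with locally Euclidean induced
metric, which is not orientable and contains a closed asymptotic line. -/
theorem result :
    ∃ M : Set E4,
      Surface (Subtype.val : M → E4) ∧
      LocallyEuclidean (Subtype.val : M → E4) ∧
      ¬ Orientable (Subtype.val : M → E4) ∧
      ∃ (c : ℝ → M) (T : ℝ), ClosedAsymptoticLine (Subtype.val : M → E4) c T :=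
  ⟨M, surface_iff.mpr isSurface_M, locallyEuclidean_iff.mpr locallyEuclidean_M,
    fun h => not_orientable_M (orientable_iff.mp h), fib, 2 * Real.pi,
    closedAsymptoticLine_of closed_line_M⟩

end Pool.Agent.Results.MP_ab5f6d_gt.FlatNonorientable
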